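import Pool.Agent.X11.BinFin

/-!
# Question Q1 of MP_918176_nt: exact 2-adic valuation for an even number of colours
-/

namespace Pool.Agent.Results.MP_918176_nt.EvenValuation

open PowerSeries

/-- `c m n` is the coefficient of `x^n` in
`(1-x)^{-m} ∏_{i ≥ 0} (1-x^{2^i})^{-m}` over the integers.  The factors with `i > n` are
`1 + O(x^{n+1})`, so they do not influence this coefficient and the product is cut at `i = n`. -/
noncomputable def c (m n : ℕ) : ℤ :=
  coeff n ((invOfUnit (1 - X : ℤ⟦X⟧) 1) ^ m *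
    ∏ i ∈ Finset.range (n + 1), (invOfUnit (1 - X ^ (2 ^ i) : ℤ⟦X⟧) 1) ^ m)

lemma c_eq (m n : ℕ) : c m n = X11.ColPart.S 2 m n := by
  unfold c X11.ColPart.S
  norm_num

theorem result (k n : ℕ) (hk : 0 < k) (hn : 0 < n) :
    emultiplicity 2 (c (2 * k) (4 * n) - c (2 * k) n)
      = ((padicValNat 2 n + 2 * padicValNat 2 k + 3 : ℕ) : ℕ∞) := by
  obtain ⟨a, u, hu, rfl⟩ := Nat.exists_eq_two_pow_mul_odd hk.ne'
  obtain ⟨s, t, ht, rfl⟩ := Nat.exists_eq_two_pow_mul_odd hn.ne'
  have hval : ∀ b v : ℕ, Odd v → padicValNat 2 (2 ^ b * v) = b := by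
    intro b v hv
    have : Fact (Nat.Prime 2) := ⟨Nat.prime_two⟩
    rw [padicValNat.mul (by positivity) (by rintro rfl; simp at hv), padicValNat.prime_pow,
      padicValNat.eq_zero_of_not_dvd (by rwa [← even_iff_two_dvd, Nat.not_even_iff_odd]), add_zero]
  rw [hval a u hu, hval s t ht]
  obtain ⟨w, hw, h⟩ := X11.ColPart.even_val a s u t hu ht
  have e : 2 * (2 ^ a * u) = 2 ^ (a + 1) * u := by ring
  rw [c_eq, c_eq, e, h]
  rw [emultiplicity_eq_coe]
  constructor
  · exact dvd_mul_right _ _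
  · intro h2
    rw [pow_succ] at h2
    have h3 := Int.dvd_of_mul_dvd_mul_left (by positivity) h2
    rw [← even_iff_two_dvd, ← Int.not_odd_iff_even] at h3
    exact h3 hw

end Pool.Agent.Results.MP_918176_nt.EvenValuation
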