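import Pool.Agent.X11.BinFin

/-!
# Question Q2 of MP_918176_nt: the conjecture on odd numbers of colours is false
-/

namespace Pool.Agent.Results.MP_918176_nt.OddDisproof

open PowerSeries

/-- `c m n` is the coefficient of `x^n` in
`(1-x)^{-m} ∏_{i ≥ 0} (1-x^{2^i})^{-m}` over the integers.  The factors with `i > n` are
`1 + O(x^{n+1})`, so they do not influence this coefficient and the product is cut at `i = n`. -/
noncomputable def c (m n : ℕ) : ℤ :=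
  coeff n ((invOfUnit (1 - X : ℤ⟦X⟧) 1) ^ m *
    ∏ i ∈ Finset.range (n + 1), (invOfUnit (1 - X ^ (2 ^ i) : ℤ⟦X⟧) 1) ^ m)

/-- `D m n` is the 2-adic valuation of `c_m(4n) - c_m(n)`, with value `⊤` when this is `0`. -/
noncomputable def D (m n : ℕ) : ℕ∞ := emultiplicity 2 (c m (4 * n) - c m n)

lemma c_eq (m n : ℕ) : c m n = X11.ColPart.S 2 m n := by
  unfold c X11.ColPart.S
  norm_num

lemma bound (k n : ℕ) (hk : k % 4 = 3) (hn : 0 < n) :
    ((padicValNat 2 n + 7 : ℕ) : ℕ∞) ≤ D (4 * k + 3) n := by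
  obtain ⟨s, t, ht, rfl⟩ := Nat.exists_eq_two_pow_mul_odd hn.ne'
  have hval : padicValNat 2 (2 ^ s * t) = s := by
    have : Fact (Nat.Prime 2) := ⟨Nat.prime_two⟩
    rw [padicValNat.mul (by positivity) (by rintro rfl; simp at ht), padicValNat.prime_pow,
      padicValNat.eq_zero_of_not_dvd (by rwa [← even_iff_two_dvd, Nat.not_even_iff_odd]), add_zero]
  rw [hval, D, ← pow_dvd_iff_le_emultiplicity, c_eq, c_eq]
  exact X11.ColPart.odd_dvd 2 s (k / 4 + 1) t (4 * k + 3) (by omega)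

theorem result :
    (∀ k n : ℕ, k % 4 = 3 → 0 < n → ((padicValNat 2 n + 7 : ℕ) : ℕ∞) ≤ D (4 * k + 3) n) ∧
    ¬ (∀ k : ℕ,
      (∀ n : ℕ, 0 < n → ((padicValNat 2 n + 3 : ℕ) : ℕ∞) ≤ D (4 * k + 1) n) ∧
      (∀ n : ℕ, 0 < n → ((padicValNat 2 n + 6 : ℕ) : ℕ∞) ≤ D (4 * k + 3) n) ∧
      {n : ℕ | 0 < n ∧ D (4 * k + 1) n = ((padicValNat 2 n + 3 : ℕ) : ℕ∞)}.Infinite ∧
      {n : ℕ | 0 < n ∧ D (4 * k + 3) n = ((padicValNat 2 n + 6 : ℕ) : ℕ∞)}.Infinite) := by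
  refine ⟨bound, fun h => ?_⟩
  obtain ⟨-, -, -, h4⟩ := h 3
  obtain ⟨n, hn, hD⟩ := h4.nonempty
  have hb := bound 3 n rfl hn
  rw [hD] at hb
  have := ENat.coe_le_coe.mp hb
  omega

end Pool.Agent.Results.MP_918176_nt.OddDisproof
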